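import Mathlib
import Pool.Agent.H.MP_04f724_gt.A

namespace Pool.Agent.Results.MP_04f724_gt.Example

theorem result : ∃ (G : Type) (_ : AddCommGroup G) (_ : TopologicalSpace G),
    IsTopologicalAddGroup G ∧ CompactSpace G ∧ T2Space G ∧ ¬ TopologicalSpace.MetrizableSpace G ∧
    ∀ H : AddSubgroup G, Dense (H : Set G) → (∀ S : Set H, S.Countable → IsCompact (closure S)) →
      DiscreteTopology (H →ₜ+ UnitAddCircle) :=
  ⟨Pool.Agent.Lib.helper24.Succ.W Cardinal.aleph0 → ZMod 2, inferInstance, inferInstance,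
    inferInstance, inferInstance, inferInstance,
    fun _ => Pool.Agent.H.MP_04f724_gt.nomet inferInstance, Pool.Agent.H.MP_04f724_gt.main⟩

end Pool.Agent.Results.MP_04f724_gt.Example
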